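import Pool.Agent.H482R3.EA.Stm

set_option autoImplicit false

/-! EA, task MAIN (helper240): induction. -/

namespace Pool.Agent.H240R.EA

open Pool.Agent.H482R3.EA

theorem t_MAIN (hS : S_STEP) (hP : S_PROD) (hI : S_IDX) (hB : S_BASE) (hC : S_COG)
    (hL : S_SPL) : S_MAIN := by
  intro n
  induction n using Nat.strong_induction_on with
  | _ n ih =>
    intro c hs hp
    rcases Nat.lt_or_ge n 2 with hn | hn
    · exact hB n c (by omega)
    · obtain ⟨U, hU1, hU2, hU⟩ := hC n (fun s t => s ≠ t ∧ c s t = 1) hn
        (fun x y h => ⟨h.1.symm, by rw [hs y x]; exact h.2⟩) (fun x h => h.1 rfl) hp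
      obtain ⟨a, b, e, ha, hb, han, hbn, e1, e2⟩ := hL n U hU1 hU2
      apply hI a b n e c
      have hs' : Symm (fun s t : Fin a ⊕ Fin b => c (e s) (e t)) := fun s t => hs _ _
      have hV : ComputablePred (Triv (cV fun s t : Fin a ⊕ Fin b => c (e s) (e t))) := by
        apply ih a han
        · intro s t
          exact hs _ _
        · rintro ⟨x, y, z, t, h1, h2, h3, h4, h5, h6, h7, h8, h9⟩
          have inj : ∀ u v : Fin a, e (.inl u) = e (.inl v) ↔ u = v := fun u v =>
            ⟨fun h => Sum.inl_injective (e.injective h), fun h => by rw [h]⟩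
          refine hp ⟨e (.inl x), e (.inl y), e (.inl z), e (.inl t), ?_⟩
          simp only [ne_eq, inj]
          exact ⟨h1, h2, h3, h4, h5, h6, h7, h8, h9⟩
      have hW : ComputablePred (Triv (cW fun s t : Fin a ⊕ Fin b => c (e s) (e t))) := by
        apply ih b hbn
        · intro s t
          exact hs _ _
        · rintro ⟨x, y, z, t, h1, h2, h3, h4, h5, h6, h7, h8, h9⟩
          have inj : ∀ u v : Fin b, e (.inr u) = e (.inr v) ↔ u = v := fun u v =>
            ⟨fun h => Sum.inr_injective (e.injective h), fun h => by rw [h]⟩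
          refine hp ⟨e (.inr x), e (.inr y), e (.inr z), e (.inr t), ?_⟩
          simp only [ne_eq, inj]
          exact ⟨h1, h2, h3, h4, h5, h6, h7, h8, h9⟩
      rcases hU with hU | hU
      · exact hP a b _ hs' (fun v w => (hU _ (e1 v) _ (e2 w)).2) hV hW
      · refine hS a b _ ha hs' (fun v w h => hU _ (e1 v) _ (e2 w) ⟨?_, h⟩) hV hW
        intro h'
        have := e.injective h'
        exact absurd this (by simp)

end Pool.Agent.H240R.EA
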