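import Pool.Agent.H482R3.EA.Stm

set_option autoImplicit false

/-! EA, task STEP (helper240): the main step. -/

namespace Pool.Agent.H240R.EA

open Pool.Agent.H482R3.EA

theorem STEP_comp {α β : Type} [Primcodable α] [Primcodable β] {p : β → Prop} {f : α → β}
    (hp : ComputablePred p) (hf : Computable f) : ComputablePred fun x => p (f x) := by
  obtain ⟨g, hg, rfl⟩ := ComputablePred.computable_iff.1 hp
  exact ComputablePred.computable_iff.2 ⟨fun x => g (f x), hg.comp hf, rfl⟩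

theorem STEP_nil {α : Type} [Primcodable α] : ComputablePred fun l : List α => l ≠ [] := by
  have h1 : PrimrecPred fun l : List α => l.length ≠ 0 := by
    exact (Primrec.eq.comp Primrec.list_length (Primrec.const 0)).not
  exact h1.computablePred.of_eq fun l => by simp [List.length_eq_zero_iff]

theorem t_STEP (hC : S_CERT) (hA : S_ADMC) (hH : S_CH) (hR : S_RE) (hV : S_VCOMP) (hX : S_REX)
    (hK : S_REC) (hP : S_CP) : S_STEP := by
  intro a b c ha hs hc hcV hcW
  rw [ComputablePred.computable_iff_re_compl_re']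
  refine ⟨hR a b c, ?_⟩
  have e : ∀ u : W (Fin a ⊕ Fin b), (∃ y : List (Syl (Fin a) (Fin b)) × W (Fin b),
      VC c none y.1 ∧ (Triv c (inv u ++ y.1.flatMap (valS c) ++ iW y.2) ∧
        (y.1 ≠ [] ∨ ¬ Triv (cW c) y.2))) ↔ ¬ Triv c u := by
    intro u
    rw [hC (Fin a) (Fin b) inferInstance inferInstance ⟨⟨0, ha⟩⟩ c hs hc u]
    constructor
    · rintro ⟨⟨code, g⟩, h1, h2, h3⟩
      exact ⟨code, g, h1, h2, h3⟩
    · rintro ⟨code, g, h1, h2, h3⟩
      exact ⟨⟨code, g⟩, h1, h2, h3⟩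
  refine REPred.of_eq (hX (W (Fin a ⊕ Fin b)) (List (Syl (Fin a) (Fin b)) × W (Fin b))
    inferInstance inferInstance (fun x => VC c none x.2.1 ∧
      (Triv c (inv x.1 ++ x.2.1.flatMap (valS c) ++ iW x.2.2) ∧
        (x.2.1 ≠ [] ∨ ¬ Triv (cW c) x.2.2))) ?_) e
  have hch := hH (Syl (Fin a) (Fin b)) inferInstance (fun s t => AdmW c s t) (fun s l => VC c s l)
    (fun s => by simp [VC]) (fun s x l => by simp [VC]) (hA a b c hc hcV hcW)
  have f1 : Computable fun x : W (Fin a ⊕ Fin b) × (List (Syl (Fin a) (Fin b)) × W (Fin b)) =>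
      ((none : Option (Syl (Fin a) (Fin b))), x.2.1) :=
    (Computable.const none).pair (Computable.fst.comp Computable.snd)
  have g1 := (STEP_comp hch f1).to_re
  have g2 := (hK (W (Fin a ⊕ Fin b) × (List (Syl (Fin a) (Fin b)) × W (Fin b)))
    (W (Fin a ⊕ Fin b)) inferInstance inferInstance).2 (Triv c) _ (hR a b c) (hV a b c)
  have g3 : ComputablePred fun x : W (Fin a ⊕ Fin b) ×
      (List (Syl (Fin a) (Fin b)) × W (Fin b)) => x.2.1 ≠ [] :=
    STEP_comp (p := fun l : List (Syl (Fin a) (Fin b)) => l ≠ []) STEP_nil (Computable.fst.comp Computable.snd)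
  have g4 : ComputablePred fun x : W (Fin a ⊕ Fin b) ×
      (List (Syl (Fin a) (Fin b)) × W (Fin b)) => ¬ Triv (cW c) x.2.2 :=
    STEP_comp (p := fun g : W (Fin b) => ¬ Triv (cW c) g) hcW.not (Computable.snd.comp Computable.snd)
  have g5 := ((hP (W (Fin a ⊕ Fin b) × (List (Syl (Fin a) (Fin b)) × W (Fin b)))
    inferInstance 0).2.1 _ _ g3 g4).to_re
  have hand := (hK (W (Fin a ⊕ Fin b) × (List (Syl (Fin a) (Fin b)) × W (Fin b)))
    (W (Fin a ⊕ Fin b)) inferInstance inferInstance).1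
  exact hand _ _ g1 (hand _ _ g2 g5)

end Pool.Agent.H240R.EA
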